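import Mathlib

open Set Filter Topology

namespace Pool.Agent.Results.MP_dace02_an.LacunaryGraph

/-- The series `G_δ(x) = ∑_{n ≥ 1} g(n² x) / n^{1+δ}` (summed over `n + 1`, `n : ℕ`). -/
noncomputable def G (g : ℝ → ℝ) (δ : ℝ) (x : ℝ) : ℝ :=
  ∑' n : ℕ, g (((n : ℝ) + 1) ^ 2 * x) / ((n : ℝ) + 1) ^ (1 + δ)

/-- `g` is continuous, `1`-periodic and is the sum of its (absolutely convergent) Fourier series
`∑_{k ∈ ℤ} C_k e^{2π i k x}`. -/
structure HasFourierExpansion (g : ℝ → ℝ) (C : ℤ → ℂ) : Prop where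
  continuous : Continuous g
  periodic : Function.Periodic g 1
  summable : Summable fun k : ℤ => ‖C k‖
  expansion : ∀ x : ℝ,
    HasSum (fun k : ℤ => C k * Complex.exp (2 * Real.pi * Complex.I * k * x)) (g x : ℂ)

/-- Condition (H): `∑_{k ≥ 1} |C_k| k^{(ε+δ)/2} < ∞` for some `ε > 0`. -/
def CondH (C : ℤ → ℂ) (δ : ℝ) : Prop :=
  ∃ ε : ℝ, 0 < ε ∧
    Summable fun k : ℕ => ‖C ((k : ℤ) + 1)‖ * ((k : ℝ) + 1) ^ ((ε + δ) / 2)

/-- Condition (NV): for some positive square-free `d₀` the (absolutely convergent) series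
`∑_{m ≥ 1} C_{m² d₀} (m² d₀)^{δ/2}` is not `0`. -/
def CondNV (C : ℤ → ℂ) (δ : ℝ) : Prop :=
  ∃ d : ℕ, 0 < d ∧ Squarefree d ∧
    Summable (fun m : ℕ => ‖C (((m : ℤ) + 1) ^ 2 * d)‖ * (((m : ℝ) + 1) ^ 2 * d) ^ (δ / 2)) ∧
    ∑' m : ℕ, C (((m : ℤ) + 1) ^ 2 * d) * (((((m : ℝ) + 1) ^ 2 * d) ^ (δ / 2) : ℝ) : ℂ) ≠ 0

/-- The graph of `f` over `[0, 1]`. -/
def graph (f : ℝ → ℝ) : Set (ℝ × ℝ) := {z | z.1 ∈ Icc (0 : ℝ) 1 ∧ z.2 = f z.1}

/-- The indices `(i, j)` of the closed grid squares `[i/N, (i+1)/N] × [j/N, (j+1)/N]` that meet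
the graph of `f`. -/
def squares (f : ℝ → ℝ) (N : ℕ) : Set (ℤ × ℤ) :=
  {p | ((Icc ((p.1 : ℝ) / N) (((p.1 : ℝ) + 1) / N) ×ˢ
      Icc ((p.2 : ℝ) / N) (((p.2 : ℝ) + 1) / N)) ∩ graph f).Nonempty}

/-- The number `A_N(f)` of grid squares meeting the graph. -/
noncomputable def boxCount (f : ℝ → ℝ) (N : ℕ) : ℕ := (squares f N).ncard

/-- The upper box dimension `limsup_N log A_N(f) / log N` of the graph of `f` over `[0,1]`. -/
noncomputable def upperBoxDim (f : ℝ → ℝ) : EReal :=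
  limsup (fun N : ℕ => ((Real.log (boxCount f N) / Real.log N : ℝ) : EReal)) atTop

/-- The lower box dimension `liminf_N log A_N(f) / log N` of the graph of `f` over `[0,1]`. -/
noncomputable def lowerBoxDim (f : ℝ → ℝ) : EReal :=
  liminf (fun N : ℕ => ((Real.log (boxCount f N) / Real.log N : ℝ) : EReal)) atTop

/-! ### Alternating sums over a grid -/

/-- The alternating sum of `f` over the grid `i / N`. -/
noncomputable def alt (N : ℕ) (f : ℝ → ℝ) : ℝ :=
  ∑ i ∈ Finset.range N, (-1 : ℝ) ^ i * f ((i : ℝ) / N)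

lemma alt_cos (M : ℕ) (hM : 0 < M) (l : ℕ) :
    (∃ c : ℂ, c ^ (2 * M) = 1 ∧ c = -Complex.exp (2 * Real.pi * Complex.I * l / (2 * M : ℕ)) ∧
      alt (2 * M) (fun x => Real.cos (2 * Real.pi * l * x)) =
        (∑ i ∈ Finset.range (2 * M), c ^ i).re) := by
  have hM' : ((2 * M : ℕ) : ℂ) ≠ 0 := by
    exact_mod_cast (by omega : 2 * M ≠ 0)
  refine ⟨-Complex.exp (2 * Real.pi * Complex.I * l / (2 * M : ℕ)), ?_, rfl, ?_⟩
  · rw [Even.neg_pow ⟨M, by ring⟩, ← Complex.exp_nat_mul]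
    have : ((2 * M : ℕ) : ℂ) * (2 * Real.pi * Complex.I * l / (2 * M : ℕ)) =
        (l : ℂ) * (2 * Real.pi * Complex.I) := by
      field_simp
    rw [this]
    exact Complex.exp_nat_mul_two_pi_mul_I l
  · unfold alt
    rw [Complex.re_sum]
    refine Finset.sum_congr rfl fun i _ => ?_
    rw [neg_pow (Complex.exp _), ← Complex.exp_nat_mul]
    have h1 : (i : ℂ) * (2 * Real.pi * Complex.I * l / (2 * M : ℕ)) =
        ((2 * Real.pi * l * ((i : ℝ) / (2 * M : ℕ)) : ℝ) : ℂ) * Complex.I := by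
      push_cast
      ring
    rw [h1]
    have h2 : ((-1 : ℂ) ^ i) = (((-1 : ℝ) ^ i : ℝ) : ℂ) := by push_cast; ring
    rw [h2, Complex.re_ofReal_mul, Complex.exp_ofReal_mul_I_re]

lemma alt_cos_nonneg (M : ℕ) (hM : 0 < M) (l : ℕ) :
    0 ≤ alt (2 * M) (fun x => Real.cos (2 * Real.pi * l * x)) := by
  obtain ⟨c, hc, -, h⟩ := alt_cos M hM l
  rw [h]
  by_cases h1 : c = 1
  · subst h1
    simp
  · rw [geom_sum_eq h1, hc]
    simp

lemma alt_cos_self (M : ℕ) (hM : 0 < M) :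
    alt (2 * M) (fun x => Real.cos (2 * Real.pi * M * x)) = 2 * M := by
  obtain ⟨c, hc, h0, h⟩ := alt_cos M hM M
  have hM' : (M : ℂ) ≠ 0 := by exact_mod_cast hM.ne'
  have h1 : c = 1 := by
    rw [h0]
    have : (2 * Real.pi * Complex.I * M / (2 * M : ℕ) : ℂ) = Real.pi * Complex.I := by
      push_cast
      field_simp
    rw [this, Complex.exp_pi_mul_I]
    ring
  rw [h, h1]
  simp

lemma alt_tsum (N : ℕ) (F : ℕ → ℝ → ℝ) (hF : ∀ x, Summable fun j => F j x) :
    HasSum (fun j => alt N (F j)) (alt N (fun x => ∑' j, F j x)) := by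
  unfold alt
  refine hasSum_sum fun i _ => ?_
  exact (hF _).hasSum.mul_left _

lemma alt_smul (N : ℕ) (a : ℝ) (f : ℝ → ℝ) :
    alt N (fun x => a * f x) = a * alt N f := by
  unfold alt
  rw [Finset.mul_sum]
  refine Finset.sum_congr rfl fun i _ => by ring

lemma alt_pair (M : ℕ) (f : ℕ → ℝ) :
    ∑ i ∈ Finset.range (2 * M), (-1 : ℝ) ^ i * f i =
      ∑ i ∈ Finset.range M, (f (2 * i) - f (2 * i + 1)) := by
  induction M with
  | zero => simp
  | succ M ih =>
    rw [show 2 * (M + 1) = 2 * M + 1 + 1 by ring, Finset.sum_range_succ, Finset.sum_range_succ,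
      Finset.sum_range_succ, ih]
    have h1 : (-1 : ℝ) ^ (2 * M) = 1 := by rw [pow_mul]; norm_num
    have h2 : (-1 : ℝ) ^ (2 * M + 1) = -1 := by rw [pow_succ, h1]; norm_num
    rw [h1, h2]
    ring

/-! ### Box counting -/

lemma squares_finite (f : ℝ → ℝ) (hf : Continuous f) (N : ℕ) (hN : 0 < N) :
    (squares f N).Finite := by
  have hNR : (0 : ℝ) < N := by exact_mod_cast hN
  obtain ⟨B, hB⟩ := (isCompact_Icc (a := (0 : ℝ)) (b := 1)).exists_bound_of_continuousOn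
    hf.continuousOn
  obtain ⟨K, hK⟩ := exists_nat_gt (N * B + N)
  refine ((Set.finite_Icc (-(K : ℤ) - 1) (K + 1)).prod
    (Set.finite_Icc (-(K : ℤ) - 1) (K + 1))).subset ?_
  rintro ⟨i, j⟩ ⟨⟨x, y⟩, ⟨⟨hx, hy⟩, ⟨hx01, hxy⟩⟩⟩
  simp only [mem_Icc, div_le_iff₀ hNR, le_div_iff₀ hNR] at hx hy hx01 hxy ⊢
  have hb := abs_le.1 (by simpa using hB x hx01)
  have hB0 : 0 ≤ B := le_trans (norm_nonneg _) (hB x hx01)
  subst hxy
  have h1 : f x * N ≤ N * B := by nlinarith [hb.2]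
  have h2 : -(N * B) ≤ f x * N := by nlinarith [hb.1]
  have h3 : x * N ≤ N := by nlinarith [hx01.2]
  have h4 : 0 ≤ x * N := by nlinarith [hx01.1]
  have h5 : 0 ≤ N * B := by positivity
  refine Set.mem_prod.2 ⟨⟨?_, ?_⟩, ⟨?_, ?_⟩⟩
  · have : (-(K : ℝ) - 1) ≤ (i : ℝ) := by linarith [hx.2]
    exact_mod_cast this
  · have : (i : ℝ) ≤ (K : ℝ) + 1 := by linarith [hx.1]
    exact_mod_cast this
  · have : (-(K : ℝ) - 1) ≤ (j : ℝ) := by linarith [hy.2]
    exact_mod_cast this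
  · have : (j : ℝ) ≤ (K : ℝ) + 1 := by linarith [hy.1]
    exact_mod_cast this

/-- In every column the number of squares met is at least `N` times the increment. -/
lemma column (f : ℝ → ℝ) (hf : Continuous f) (N : ℕ) (hN : 0 < N) (i : ℕ) (hi : i < N) :
    ∃ T : Finset ℤ, (N : ℝ) * |f ((i : ℝ) / N) - f (((i : ℝ) + 1) / N)| ≤ T.card ∧
      ∀ j ∈ T, ((i : ℤ), j) ∈ squares f N := by
  have hNR : (0 : ℝ) < N := by exact_mod_cast hN
  set a : ℝ := (i : ℝ) / N
  set b : ℝ := ((i : ℝ) + 1) / N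
  have hab : a ≤ b := div_le_div_of_nonneg_right (by linarith) hNR.le
  have ha0 : 0 ≤ a := by positivity
  have hb1 : b ≤ 1 := by
    rw [div_le_one hNR]
    exact_mod_cast hi
  set y0 := min (f a) (f b)
  set y1 := max (f a) (f b)
  have hy : y0 ≤ y1 := min_le_max
  have hdiff : |f a - f b| = y1 - y0 := by
    rcases le_total (f a) (f b) with h | h
    · rw [abs_of_nonpos (by linarith)]; simp [y0, y1, h]
    · rw [abs_of_nonneg (by linarith)]; simp [y0, y1, h]
  refine ⟨Finset.Icc ⌊N * y0⌋ ⌊N * y1⌋, ?_, ?_⟩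
  · rw [hdiff, Int.card_Icc]
    have h1 : (N : ℝ) * y1 < ⌊N * y1⌋ + 1 := Int.lt_floor_add_one _
    have h2 : (⌊N * y0⌋ : ℝ) ≤ N * y0 := Int.floor_le _
    have h3 : ((⌊N * y1⌋ + 1 - ⌊N * y0⌋ : ℤ) : ℝ) ≤
        (((⌊N * y1⌋ + 1 - ⌊N * y0⌋).toNat : ℤ) : ℝ) := by
      exact_mod_cast Int.self_le_toNat _
    push_cast at h3
    have h4 : ((((⌊N * y1⌋ + 1 - ⌊N * y0⌋).toNat : ℕ) : ℤ) : ℝ) =
        (((⌊N * y1⌋ + 1 - ⌊N * y0⌋).toNat : ℕ) : ℝ) := by norm_cast
    rw [← h4]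
    push_cast
    linarith
  · intro j hj
    rw [Finset.mem_Icc] at hj
    -- choose a value in the intersection
    have h0 : ((j : ℝ)) ≤ N * y1 := le_trans (by exact_mod_cast hj.2) (Int.floor_le _)
    have h1 : (N : ℝ) * y0 < j + 1 := lt_of_lt_of_le (Int.lt_floor_add_one _)
      (by have : (⌊(N : ℝ) * y0⌋ : ℝ) ≤ j := by exact_mod_cast hj.1
          linarith)
    have hy' : max y0 ((j : ℝ) / N) ∈ Icc y0 y1 := by
      refine ⟨le_max_left _ _, max_le hy ?_⟩
      rw [div_le_iff₀ hNR]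
      linarith
    have hivt : Icc y0 y1 ⊆ f '' Icc a b := by
      have h := intermediate_value_uIcc (a := a) (b := b) (f := f) hf.continuousOn
      rw [uIcc_of_le hab] at h
      exact h
    obtain ⟨x, hx, hfx⟩ := hivt hy'
    refine ⟨(x, f x), ⟨⟨?_, ?_⟩, ⟨⟨ha0.trans hx.1, hx.2.trans hb1⟩, rfl⟩⟩⟩
    · simpa [a, b] using hx
    · simp only [mem_Icc]
      rw [hfx]
      refine ⟨le_max_right _ _, max_le ?_ ?_⟩
      · rw [le_div_iff₀ hNR]; linarith
      · exact div_le_div_of_nonneg_right (by linarith) hNR.le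

lemma boxCount_lower (f : ℝ → ℝ) (hf : Continuous f) (M : ℕ) (hM : 0 < M) :
    ((2 * M : ℕ) : ℝ) * alt (2 * M) f ≤ boxCount f (2 * M) := by
  have hN : 0 < 2 * M := by omega
  choose! T hT1 hT2 using fun (i : ℕ) (hi : i < 2 * M) => column f hf (2 * M) hN i hi
  -- the family of squares in even columns
  let U : Finset (Σ _ : ℕ, ℤ) := (Finset.range M).sigma fun i => T (2 * i)
  let e : (Σ _ : ℕ, ℤ) → ℤ × ℤ := fun p => ((2 * p.1 : ℕ), p.2)
  have he : Function.Injective e := by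
    rintro ⟨i, j⟩ ⟨i', j'⟩ h
    simp only [e, Prod.mk.injEq] at h
    obtain ⟨h1, h2⟩ := h
    have : i = i' := by
      have h3 : 2 * i = 2 * i' := by exact_mod_cast h1
      omega
    subst this
    subst h2
    rfl
  have hsub : ((U.image e : Finset (ℤ × ℤ)) : Set (ℤ × ℤ)) ⊆ squares f (2 * M) := by
    intro p hp
    rw [Finset.mem_coe, Finset.mem_image] at hp
    obtain ⟨⟨i, j⟩, hij, rfl⟩ := hp
    rw [Finset.mem_sigma] at hij
    have hi : 2 * i < 2 * M := by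
      have : i < M := Finset.mem_range.1 hij.1
      omega
    exact hT2 (2 * i) hi j hij.2
  have hcard : (U.card : ℝ) ≤ boxCount f (2 * M) := by
    have h1 : (U.image e).card = U.card := Finset.card_image_of_injective _ he
    have h2 := Set.ncard_le_ncard hsub (squares_finite f hf _ hN)
    rw [Set.ncard_coe_finset, h1] at h2
    exact_mod_cast h2
  refine le_trans ?_ hcard
  have hU : (U.card : ℝ) = ∑ i ∈ Finset.range M, ((T (2 * i)).card : ℝ) := by
    rw [Finset.card_sigma]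
    push_cast
    rfl
  rw [hU]
  have halt : alt (2 * M) f = ∑ i ∈ Finset.range M,
      (f (((2 * i : ℕ) : ℝ) / (2 * M : ℕ)) - f (((2 * i + 1 : ℕ) : ℝ) / (2 * M : ℕ))) :=
    alt_pair M (fun i => f ((i : ℝ) / (2 * M : ℕ)))
  rw [halt, Finset.mul_sum]
  refine Finset.sum_le_sum fun i hi => ?_
  have hi' : 2 * i < 2 * M := by
    have := Finset.mem_range.1 hi
    omega
  refine le_trans ?_ (hT1 (2 * i) hi')
  refine mul_le_mul_of_nonneg_left ?_ (by positivity)
  refine le_trans (le_abs_self _) ?_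
  push_cast
  exact le_rfl

/-! ### The function -/

/-- the coefficients `4^{-js}` -/
noncomputable def a (s : ℝ) (j : ℕ) : ℝ := ((4 : ℝ) ^ j) ^ (-s)

lemma a_pos (s : ℝ) (j : ℕ) : 0 < a s j := by unfold a; positivity

lemma a_eq (s : ℝ) (j : ℕ) : a s j = ((4 : ℝ) ^ (-s)) ^ j := by
  unfold a
  rw [← Real.rpow_natCast, ← Real.rpow_mul (by norm_num), ← Real.rpow_natCast,
    ← Real.rpow_mul (by norm_num)]
  ring_nf

lemma a_summable {s : ℝ} (hs : 0 < s) : Summable (a s) := by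
  have : a s = fun j => ((4 : ℝ) ^ (-s)) ^ j := funext (a_eq s)
  rw [this]
  refine summable_geometric_of_lt_one (by positivity) ?_
  exact Real.rpow_lt_one_of_one_lt_of_neg (by norm_num) (by linarith)

/-- The lacunary cosine series `∑_j 4^{-js} cos(2π 4^j x)`. -/
noncomputable def gg (s : ℝ) (x : ℝ) : ℝ :=
  ∑' j : ℕ, a s j * Real.cos (2 * Real.pi * (4 ^ j : ℕ) * x)

lemma gg_term_bound (s : ℝ) (j : ℕ) (x : ℝ) :
    ‖a s j * Real.cos (2 * Real.pi * (4 ^ j : ℕ) * x)‖ ≤ a s j := by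
  rw [norm_mul, Real.norm_of_nonneg (a_pos s j).le]
  exact mul_le_of_le_one_right (a_pos s j).le (Real.abs_cos_le_one _)

lemma gg_summable {s : ℝ} (hs : 0 < s) (x : ℝ) :
    Summable fun j : ℕ => a s j * Real.cos (2 * Real.pi * (4 ^ j : ℕ) * x) :=
  Summable.of_norm_bounded (a_summable hs) (fun j => gg_term_bound s j x)

lemma gg_continuous {s : ℝ} (hs : 0 < s) : Continuous (gg s) := by
  refine continuous_tsum (fun j => by fun_prop) (a_summable hs) (fun j x => gg_term_bound s j x)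

lemma gg_periodic (s : ℝ) : Function.Periodic (gg s) 1 := by
  intro x
  unfold gg
  refine tsum_congr fun j => ?_
  congr 1
  rw [show 2 * Real.pi * (4 ^ j : ℕ) * (x + 1) =
    2 * Real.pi * (4 ^ j : ℕ) * x + (4 ^ j : ℕ) * (2 * Real.pi) by ring]
  exact Real.cos_add_nat_mul_two_pi _ _

lemma gg_bound {s : ℝ} (hs : 0 < s) (x : ℝ) : ‖gg s x‖ ≤ ∑' j, a s j :=
  tsum_of_norm_bounded (a_summable hs).hasSum (fun j => gg_term_bound s j x)

lemma weight_summable {δ : ℝ} (hδ : 0 < δ) :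
    Summable fun n : ℕ => (((n : ℝ) + 1) ^ (1 + δ))⁻¹ := by
  have h := (Real.summable_nat_rpow_inv (p := 1 + δ)).2 (by linarith)
  have h2 := (summable_nat_add_iff 1).2 h
  simpa using h2

lemma G_term_bound {s δ : ℝ} (hs : 0 < s) (n : ℕ) (x : ℝ) :
    ‖gg s (((n : ℝ) + 1) ^ 2 * x) / ((n : ℝ) + 1) ^ (1 + δ)‖ ≤
      (∑' j, a s j) * (((n : ℝ) + 1) ^ (1 + δ))⁻¹ := by
  have hpos : (0 : ℝ) < ((n : ℝ) + 1) ^ (1 + δ) := by positivity
  rw [norm_div, Real.norm_of_nonneg hpos.le, div_eq_mul_inv]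
  exact mul_le_mul_of_nonneg_right (gg_bound hs _) (by positivity)

lemma G_summable {s δ : ℝ} (hs : 0 < s) (hδ : 0 < δ) (x : ℝ) :
    Summable fun n : ℕ => gg s (((n : ℝ) + 1) ^ 2 * x) / ((n : ℝ) + 1) ^ (1 + δ) :=
  Summable.of_norm_bounded ((weight_summable hδ).mul_left _) (fun n => G_term_bound hs n x)

lemma G_continuous {s δ : ℝ} (hs : 0 < s) (hδ : 0 < δ) : Continuous (G (gg s) δ) := by
  refine continuous_tsum (fun n => ?_) ((weight_summable hδ).mul_left _)
    (fun n x => G_term_bound hs n x)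
  exact ((gg_continuous hs).comp (by fun_prop)).div_const _

lemma alt_gg_hasSum {s : ℝ} (hs : 0 < s) (N : ℕ) (q : ℕ) :
    HasSum (fun j => a s j * alt N (fun x => Real.cos (2 * Real.pi * (4 ^ j * q : ℕ) * x)))
      (alt N (fun x => gg s ((q : ℝ) * x))) := by
  have h := alt_tsum N (fun j x => a s j * Real.cos (2 * Real.pi * (4 ^ j : ℕ) * ((q : ℝ) * x)))
    (fun x => gg_summable hs _)
  have h2 : (fun j => a s j * alt N (fun x => Real.cos (2 * Real.pi * (4 ^ j * q : ℕ) * x))) =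
      fun j => alt N (fun x => a s j * Real.cos (2 * Real.pi * (4 ^ j : ℕ) * ((q : ℝ) * x))) := by
    funext j
    rw [← alt_smul]
    congr 1
    funext x
    congr 2
    push_cast
    ring
  rw [h2]
  exact h

lemma alt_gg_nonneg {s : ℝ} (hs : 0 < s) (M : ℕ) (hM : 0 < M) (q : ℕ) :
    0 ≤ alt (2 * M) (fun x => gg s ((q : ℝ) * x)) :=
  (alt_gg_hasSum hs (2 * M) q).nonneg fun j =>
    mul_nonneg (a_pos s j).le (alt_cos_nonneg M hM _)

lemma alt_gg_self {s : ℝ} (hs : 0 < s) (J : ℕ) :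
    ((2 * 4 ^ J : ℕ) : ℝ) * a s J ≤ alt (2 * 4 ^ J) (fun x => gg s (((1 : ℕ) : ℝ) * x)) := by
  have hM : 0 < 4 ^ J := by positivity
  have h := (alt_gg_hasSum hs (2 * 4 ^ J) 1)
  have h2 := h.summable.le_tsum J (fun j _ =>
    mul_nonneg (a_pos s j).le (alt_cos_nonneg (4 ^ J) hM _))
  rw [h.tsum_eq] at h2
  refine le_trans (le_of_eq ?_) h2
  have h3 := alt_cos_self (4 ^ J) hM
  rw [mul_one, h3]
  push_cast
  ring

lemma alt_G {s δ : ℝ} (hs : 0 < s) (hδ : 0 < δ) (J : ℕ) :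
    ((2 * 4 ^ J : ℕ) : ℝ) * a s J ≤ alt (2 * 4 ^ J) (G (gg s) δ) := by
  have hM : 0 < 4 ^ J := by positivity
  have h := alt_tsum (2 * 4 ^ J)
    (fun n x => gg s (((n : ℝ) + 1) ^ 2 * x) / ((n : ℝ) + 1) ^ (1 + δ))
    (fun x => G_summable hs hδ x)
  have hterm : ∀ n : ℕ, alt (2 * 4 ^ J)
      (fun x => gg s (((n : ℝ) + 1) ^ 2 * x) / ((n : ℝ) + 1) ^ (1 + δ)) =
      (((n : ℝ) + 1) ^ (1 + δ))⁻¹ *
        alt (2 * 4 ^ J) (fun x => gg s ((((n + 1) ^ 2 : ℕ) : ℝ) * x)) := by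
    intro n
    rw [← alt_smul]
    congr 1
    funext x
    push_cast
    ring
  have hnn : ∀ n : ℕ, 0 ≤ alt (2 * 4 ^ J)
      (fun x => gg s (((n : ℝ) + 1) ^ 2 * x) / ((n : ℝ) + 1) ^ (1 + δ)) := by
    intro n
    rw [hterm]
    exact mul_nonneg (by positivity) (alt_gg_nonneg hs _ hM _)
  have h2 := h.summable.le_tsum 0 (fun j _ => hnn j)
  rw [h.tsum_eq] at h2
  refine le_trans ?_ h2
  have h3 := hterm 0
  rw [h3]
  have h4 := alt_gg_self hs J
  simpa using h4

/-! ### Fourier coefficients -/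

/-- The positive frequencies. -/
def fp (j : ℕ) : ℤ := 4 ^ j

/-- The negative frequencies. -/
def fm (j : ℕ) : ℤ := -4 ^ j

lemma fp_inj : Function.Injective fp := fun i j h =>
  Nat.pow_right_injective (le_refl 2 |>.trans (by norm_num : 2 ≤ 4)) (by
    have : ((4 ^ i : ℕ) : ℤ) = ((4 ^ j : ℕ) : ℤ) := by push_cast; exact h
    exact_mod_cast this)

lemma fm_inj : Function.Injective fm := fun i j h => fp_inj (by
  simpa [fm, fp] using h)

/-- The Fourier coefficients of the lacunary series (as real numbers). -/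
noncomputable def cc (s : ℝ) (k : ℤ) : ℝ :=
  Function.extend fp (fun j => a s j / 2) 0 k + Function.extend fm (fun j => a s j / 2) 0 k

lemma extend_nonneg {u : ℕ → ℤ} (hu : Function.Injective u) {b : ℕ → ℝ} (hb : ∀ j, 0 ≤ b j)
    (k : ℤ) : 0 ≤ Function.extend u b 0 k := by
  by_cases h : ∃ j, u j = k
  · obtain ⟨j, rfl⟩ := h
    rw [hu.extend_apply]
    exact hb j
  · rw [Function.extend_apply' _ _ _ h]
    exact le_rfl

lemma cc_nonneg (s : ℝ) (k : ℤ) : 0 ≤ cc s k :=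
  add_nonneg (extend_nonneg fp_inj (fun j => by have := a_pos s j; positivity) k)
    (extend_nonneg fm_inj (fun j => by have := a_pos s j; positivity) k)

lemma extend_mul {α : Type*} [MulZeroClass α] {u : ℕ → ℤ} (hu : Function.Injective u)
    (b : ℕ → α) (w : ℤ → α) (k : ℤ) :
    Function.extend u b 0 k * w k = Function.extend u (fun j => b j * w (u j)) 0 k := by
  by_cases h : ∃ j, u j = k
  · obtain ⟨j, rfl⟩ := h
    rw [hu.extend_apply, hu.extend_apply]
  · rw [Function.extend_apply' _ _ _ h, Function.extend_apply' _ _ _ h]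
    simp

lemma cc_weight_summable {s t : ℝ} (hst : t < s) :
    Summable fun k : ℤ => cc s k * |(k : ℝ)| ^ t := by
  have h0 : Summable fun j : ℕ => a s j / 2 * ((4 : ℝ) ^ j) ^ t := by
    have h1 := (a_summable (s := s - t) (by linarith)).div_const 2
    refine h1.congr fun j => ?_
    unfold a
    rw [show -(s - t) = -s + t by ring, Real.rpow_add (by positivity)]
    ring
  have h : (fun k : ℤ => cc s k * |(k : ℝ)| ^ t) = fun k : ℤ =>
      Function.extend fp (fun j => a s j / 2 * |((fp j : ℤ) : ℝ)| ^ t) 0 k +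
      Function.extend fm (fun j => a s j / 2 * |((fm j : ℤ) : ℝ)| ^ t) 0 k := by
    funext k
    unfold cc
    rw [add_mul, extend_mul fp_inj _ (fun k : ℤ => |(k : ℝ)| ^ t),
      extend_mul fm_inj _ (fun k : ℤ => |(k : ℝ)| ^ t)]
  rw [h]
  refine Summable.add ?_ ?_
  · rw [summable_extend_zero fp_inj]
    refine h0.congr fun j => ?_
    simp [fp]
  · rw [summable_extend_zero fm_inj]
    refine h0.congr fun j => ?_
    simp [fm]

lemma extend_cast {u : ℕ → ℤ} (hu : Function.Injective u) (b : ℕ → ℝ) (k : ℤ) :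
    ((Function.extend u b 0 k : ℝ) : ℂ) = Function.extend u (fun j => (b j : ℂ)) 0 k := by
  by_cases h : ∃ j, u j = k
  · obtain ⟨j, rfl⟩ := h
    rw [hu.extend_apply, hu.extend_apply]
  · rw [Function.extend_apply' _ _ _ h, Function.extend_apply' _ _ _ h]
    simp

/-- The complex coefficients. -/
noncomputable def CC (s : ℝ) (k : ℤ) : ℂ := (cc s k : ℂ)

lemma norm_CC (s : ℝ) (k : ℤ) : ‖CC s k‖ = cc s k := by
  unfold CC
  rw [Complex.norm_real, Real.norm_of_nonneg (cc_nonneg s k)]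

lemma expansion {s : ℝ} (hs : 0 < s) : HasFourierExpansion (gg s) (CC s) := by
  refine ⟨gg_continuous hs, gg_periodic s, ?_, ?_⟩
  · have h := cc_weight_summable (s := s) (t := 0) hs
    refine h.congr fun k => ?_
    rw [norm_CC, Real.rpow_zero, mul_one]
  · intro x
    have hA : HasSum (fun j : ℕ => ((a s j * Real.cos (2 * Real.pi * (4 ^ j : ℕ) * x) : ℝ) : ℂ))
        ((gg s x : ℝ) : ℂ) := by
      rw [Complex.hasSum_ofReal]
      exact (gg_summable hs x).hasSum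
    have hsum1 : Summable fun j : ℕ => ((a s j / 2 : ℝ) : ℂ) *
        Complex.exp (2 * Real.pi * Complex.I * (fp j : ℤ) * x) := by
      refine Summable.of_norm_bounded ((a_summable hs).div_const 2) fun j => ?_
      rw [norm_mul, Complex.norm_real, Real.norm_of_nonneg (by have := a_pos s j; positivity)]
      have : (2 * Real.pi * Complex.I * (fp j : ℤ) * x : ℂ) =
          ((2 * Real.pi * (fp j : ℤ) * x : ℝ) : ℂ) * Complex.I := by push_cast; ring
      rw [this, Complex.norm_exp_ofReal_mul_I, mul_one]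
    have hsum2 : Summable fun j : ℕ => ((a s j / 2 : ℝ) : ℂ) *
        Complex.exp (2 * Real.pi * Complex.I * (fm j : ℤ) * x) := by
      refine Summable.of_norm_bounded ((a_summable hs).div_const 2) fun j => ?_
      rw [norm_mul, Complex.norm_real, Real.norm_of_nonneg (by have := a_pos s j; positivity)]
      have : (2 * Real.pi * Complex.I * (fm j : ℤ) * x : ℂ) =
          ((2 * Real.pi * (fm j : ℤ) * x : ℝ) : ℂ) * Complex.I := by push_cast; ring
      rw [this, Complex.norm_exp_ofReal_mul_I, mul_one]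
    have hB := hsum1.hasSum.add hsum2.hasSum
    have hAB : (fun j : ℕ => ((a s j / 2 : ℝ) : ℂ) *
        Complex.exp (2 * Real.pi * Complex.I * (fp j : ℤ) * x) + ((a s j / 2 : ℝ) : ℂ) *
        Complex.exp (2 * Real.pi * Complex.I * (fm j : ℤ) * x)) =
        (fun j : ℕ => ((a s j * Real.cos (2 * Real.pi * (4 ^ j : ℕ) * x) : ℝ) : ℂ)) := by
      funext j
      have h1 : (2 * Real.pi * Complex.I * (fp j : ℤ) * x : ℂ) =
          ((2 * Real.pi * (4 ^ j : ℕ) * x : ℝ) : ℂ) * Complex.I := by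
        unfold fp; push_cast; ring
      have h2 : (2 * Real.pi * Complex.I * (fm j : ℤ) * x : ℂ) =
          -((2 * Real.pi * (4 ^ j : ℕ) * x : ℝ) : ℂ) * Complex.I := by
        unfold fm; push_cast; ring
      rw [h1, h2, Complex.ofReal_mul (a s j), Complex.ofReal_cos, Complex.cos]
      push_cast
      ring
    rw [hAB] at hB
    have hval := hB.unique hA
    have hC := ((hasSum_extend_zero fp_inj).2 hsum1.hasSum).add
      ((hasSum_extend_zero fm_inj).2 hsum2.hasSum)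
    rw [hval] at hC
    have hfun : (fun k : ℤ => CC s k * Complex.exp (2 * Real.pi * Complex.I * k * x)) =
        fun k : ℤ => Function.extend fp (fun j => ((a s j / 2 : ℝ) : ℂ) *
          Complex.exp (2 * Real.pi * Complex.I * (fp j : ℤ) * x)) 0 k +
          Function.extend fm (fun j => ((a s j / 2 : ℝ) : ℂ) *
          Complex.exp (2 * Real.pi * Complex.I * (fm j : ℤ) * x)) 0 k := by
      funext k
      unfold CC cc
      rw [Complex.ofReal_add, extend_cast fp_inj, extend_cast fm_inj, add_mul,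
        extend_mul fp_inj _ (fun k : ℤ => Complex.exp (2 * Real.pi * Complex.I * k * x)),
        extend_mul fm_inj _ (fun k : ℤ => Complex.exp (2 * Real.pi * Complex.I * k * x))]
    rw [hfun]
    exact hC

lemma condH {δ η : ℝ} (hη : 0 < η) : CondH (CC (δ / 2 + η)) δ := by
  refine ⟨η, hη, ?_⟩
  have h := cc_weight_summable (s := δ / 2 + η) (t := (η + δ) / 2) (by linarith)
  have hi : Function.Injective fun k : ℕ => ((k : ℤ) + 1) := fun i j hij => by
    simp only at hij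
    omega
  have h2 := h.comp_injective hi
  refine h2.congr fun k => ?_
  rw [norm_CC]
  simp only [Function.comp]
  push_cast
  rw [abs_of_nonneg (by positivity)]

lemma condNV {δ η : ℝ} (hη : 0 < η) : CondNV (CC (δ / 2 + η)) δ := by
  have h := cc_weight_summable (s := δ / 2 + η) (t := δ / 2) (by linarith)
  have hi : Function.Injective fun k : ℕ => ((k : ℤ) + 1) ^ 2 * ((1 : ℕ) : ℤ) := fun i j hij => by
    simp only [Nat.cast_one, mul_one] at hij
    have h1 : ((i : ℤ) + 1) = (j : ℤ) + 1 := by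
      have hi0 : (0 : ℤ) ≤ (i : ℤ) + 1 := by positivity
      have hj0 : (0 : ℤ) ≤ (j : ℤ) + 1 := by positivity
      exact (pow_left_inj₀ hi0 hj0 (by norm_num)).1 hij
    omega
  have h2 := h.comp_injective hi
  have h3 : Summable (fun m : ℕ => cc (δ / 2 + η) (((m : ℤ) + 1) ^ 2 * ((1 : ℕ) : ℤ)) *
      (((m : ℝ) + 1) ^ 2 * ((1 : ℕ) : ℝ)) ^ (δ / 2)) := by
    refine h2.congr fun k => ?_
    simp only [Function.comp]
    push_cast
    rw [abs_of_nonneg (by positivity)]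
  refine ⟨1, one_pos, squarefree_one, ?_, ?_⟩
  · refine h3.congr fun m => ?_
    rw [norm_CC]
  · have h4 : ∑' m : ℕ, CC (δ / 2 + η) (((m : ℤ) + 1) ^ 2 * ((1 : ℕ) : ℤ)) *
        (((((m : ℝ) + 1) ^ 2 * ((1 : ℕ) : ℝ)) ^ (δ / 2) : ℝ) : ℂ) =
        ((∑' m : ℕ, cc (δ / 2 + η) (((m : ℤ) + 1) ^ 2 * ((1 : ℕ) : ℤ)) *
      (((m : ℝ) + 1) ^ 2 * ((1 : ℕ) : ℝ)) ^ (δ / 2) : ℝ) : ℂ) := by
      rw [Complex.ofReal_tsum]
      refine tsum_congr fun m => ?_
      unfold CC
      push_cast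
      rfl
    rw [h4]
    have h5 : 0 < ∑' m : ℕ, cc (δ / 2 + η) (((m : ℤ) + 1) ^ 2 * ((1 : ℕ) : ℤ)) *
      (((m : ℝ) + 1) ^ 2 * ((1 : ℕ) : ℝ)) ^ (δ / 2) := by
      refine h3.tsum_pos (fun m => mul_nonneg (cc_nonneg _ _) (by positivity)) 0 ?_
      have h6 : (((0 : ℕ) : ℤ) + 1) ^ 2 * ((1 : ℕ) : ℤ) = fp 0 := by simp [fp]
      rw [h6]
      refine mul_pos ?_ (by positivity)
      unfold cc
      rw [fp_inj.extend_apply]
      have := extend_nonneg fm_inj (b := fun j => a (δ / 2 + η) j / 2)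
        (fun j => by have := a_pos (δ / 2 + η) j; positivity) (fp 0)
      have h7 := a_pos (δ / 2 + η) 0
      linarith
    exact_mod_cast h5.ne'

lemma upper_bound {δ η : ℝ} (hδ : 0 < δ) (hη : 0 < η) :
    ((2 - δ / 2 - η : ℝ) : EReal) ≤ upperBoxDim (G (gg (δ / 2 + η)) δ) := by
  have hs : 0 < δ / 2 + η := by positivity
  unfold upperBoxDim
  refine le_limsup_of_frequently_le ?_ (by isBoundedDefault)
  rw [Filter.frequently_atTop]
  intro n
  refine ⟨2 * 4 ^ n, ?_, ?_⟩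
  · have h1 : n < 4 ^ n := Nat.lt_pow_self (by norm_num)
    omega
  · rw [EReal.coe_le_coe_iff]
    set N : ℕ := 2 * 4 ^ n with hN
    have hM : 0 < 4 ^ n := by positivity
    have hNpos : (0 : ℝ) < N := by positivity
    have hN1 : (1 : ℝ) < N := by
      have : 1 < N := by omega
      exact_mod_cast this
    have hlog : 0 < Real.log N := Real.log_pos hN1
    rw [le_div_iff₀ hlog, ← Real.log_rpow hNpos]
    refine Real.log_le_log (by positivity) ?_
    have h1 := boxCount_lower (G (gg (δ / 2 + η)) δ) (G_continuous hs hδ) (4 ^ n) hM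
    have h2 := alt_G hs hδ n
    have h3 : (N : ℝ) * (N * a (δ / 2 + η) n) ≤ boxCount (G (gg (δ / 2 + η)) δ) N :=
      le_trans (mul_le_mul_of_nonneg_left h2 hNpos.le) h1
    refine le_trans ?_ h3
    have h4 : (N : ℝ) ^ (2 - δ / 2 - η) = N * (N * (N : ℝ) ^ (-(δ / 2 + η))) := by
      rw [show (2 - δ / 2 - η : ℝ) = 1 + (1 + -(δ / 2 + η)) by ring, Real.rpow_add hNpos,
        Real.rpow_add hNpos, Real.rpow_one]
    rw [h4]
    refine mul_le_mul_of_nonneg_left (mul_le_mul_of_nonneg_left ?_ hNpos.le) hNpos.le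
    unfold a
    refine Real.rpow_le_rpow_of_nonpos (by positivity) ?_ (by linarith)
    have : 4 ^ n ≤ N := by omega
    exact_mod_cast this

/-- **Disproof.** For every `δ ∈ (0, 1]` and `η > 0` there is a continuous `1`-periodic `g` with
(H) and (NV) for which the upper box dimension of the graph of `G_δ` over `[0,1]` is at least
`2 - δ/2 - η`; with `η < 1/4` this exceeds `7/4 - δ/2`. Hence it is false that under (H) and (NV)
the box dimension always exists and equals `7/4 - δ/2`, and this fails for every single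
`δ ∈ (0, 1]`. -/
theorem result :
    (∀ δ : ℝ, 0 < δ → δ ≤ 1 → ∀ η : ℝ, 0 < η → ∃ (g : ℝ → ℝ) (C : ℤ → ℂ),
      HasFourierExpansion g C ∧ CondH C δ ∧ CondNV C δ ∧
      ((2 - δ / 2 - η : ℝ) : EReal) ≤ upperBoxDim (G g δ)) ∧
    (∀ δ : ℝ, 0 < δ → δ ≤ 1 → ∃ (g : ℝ → ℝ) (C : ℤ → ℂ),
      HasFourierExpansion g C ∧ CondH C δ ∧ CondNV C δ ∧
      ((7 / 4 - δ / 2 : ℝ) : EReal) < upperBoxDim (G g δ)) := by
  have key : ∀ δ : ℝ, 0 < δ → δ ≤ 1 → ∀ η : ℝ, 0 < η → ∃ (g : ℝ → ℝ) (C : ℤ → ℂ),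
      HasFourierExpansion g C ∧ CondH C δ ∧ CondNV C δ ∧
      ((2 - δ / 2 - η : ℝ) : EReal) ≤ upperBoxDim (G g δ) := by
    intro δ hδ _ η hη
    exact ⟨gg (δ / 2 + η), CC (δ / 2 + η), expansion (by positivity), condH hη, condNV hη,
      upper_bound hδ hη⟩
  refine ⟨key, fun δ hδ h1 => ?_⟩
  obtain ⟨g, C, h2, h3, h4, h5⟩ := key δ hδ h1 (1 / 8) (by norm_num)
  refine ⟨g, C, h2, h3, h4, lt_of_lt_of_le ?_ h5⟩
  rw [EReal.coe_lt_coe_iff]
  linarith

end Pool.Agent.Results.MP_dace02_an.LacunaryGraph
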